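import Pool.Agent.Work.MP_64ea0f_cs.InterfaceG1

set_option autoImplicit false

namespace Pool.CS

/-- Two involutions whose product has finite order generate a finite subgroup. -/
theorem bfn_dihedral {G : Type} [Group G] (a b : G) (ha : a * a = 1) (hb : b * b = 1) (k : ℕ)
    (hk : 0 < k) (h : (a * b) ^ k = 1) : Finite (Subgroup.closure ({a, b} : Set G)) := by
  have hfo : IsOfFinOrder (a * b) := isOfFinOrder_iff_pow_eq_one.2 ⟨k, hk, h⟩
  have hz : (Subgroup.zpowers (a * b) : Set G).Finite := hfo.finite_zpowers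
  have hai : a⁻¹ = a := inv_eq_of_mul_eq_one_right ha
  have hbi : b⁻¹ = b := inv_eq_of_mul_eq_one_right hb
  have hT : ((Subgroup.zpowers (a * b) : Set G) ∪
      (fun g => g * a) '' (Subgroup.zpowers (a * b) : Set G)).Finite :=
    hz.union (hz.image _)
  have hstepa : ∀ x, x ∈ ((Subgroup.zpowers (a * b) : Set G) ∪
      (fun g => g * a) '' (Subgroup.zpowers (a * b) : Set G)) → x * a ∈
        ((Subgroup.zpowers (a * b) : Set G) ∪
      (fun g => g * a) '' (Subgroup.zpowers (a * b) : Set G)) := by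
    rintro x (hx | ⟨y, hy, rfl⟩)
    · exact Or.inr ⟨x, hx, rfl⟩
    · refine Or.inl ?_
      show y * a * a ∈ _
      rw [mul_assoc, ha, mul_one]
      exact hy
  have hstepb : ∀ x, x ∈ ((Subgroup.zpowers (a * b) : Set G) ∪
      (fun g => g * a) '' (Subgroup.zpowers (a * b) : Set G)) → x * b ∈
        ((Subgroup.zpowers (a * b) : Set G) ∪
      (fun g => g * a) '' (Subgroup.zpowers (a * b) : Set G)) := by
    rintro x (hx | ⟨y, hy, rfl⟩)
    · refine Or.inr ⟨x * (a * b)⁻¹, ?_, ?_⟩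
      · exact Subgroup.mul_mem _ hx (Subgroup.inv_mem _ (Subgroup.mem_zpowers _))
      · show x * (a * b)⁻¹ * a = x * b
        rw [mul_inv_rev, hai, hbi, mul_assoc, mul_assoc, ha, mul_one]
    · refine Or.inl ?_
      show y * a * b ∈ _
      rw [mul_assoc]
      exact Subgroup.mul_mem _ hy (Subgroup.mem_zpowers _)
  have hsub : (Subgroup.closure ({a, b} : Set G) : Set G) ⊆
      ((Subgroup.zpowers (a * b) : Set G) ∪
      (fun g => g * a) '' (Subgroup.zpowers (a * b) : Set G)) := by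
    intro x hx
    refine Subgroup.closure_induction_right (p := fun x _ => x ∈
      ((Subgroup.zpowers (a * b) : Set G) ∪
      (fun g => g * a) '' (Subgroup.zpowers (a * b) : Set G))) ?_ ?_ ?_ hx
    · exact Or.inl (Subgroup.one_mem _)
    · intro x _ y hy h1
      rcases hy with rfl | hy
      · exact hstepa x h1
      · rw [Set.mem_singleton_iff] at hy
        rw [hy]
        exact hstepb x h1
    · intro x _ y hy h1
      rcases hy with rfl | hy
      · rw [hai]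
        exact hstepa x h1
      · rw [Set.mem_singleton_iff] at hy
        rw [hy, hbi]
        exact hstepb x h1
  exact (hT.subset hsub).to_subtype

theorem bfn_thm : Stmt_BAS → Stmt_PAR → Stmt_FINO → Stmt_PCL → Stmt_FPR → Stmt_BFN := by
  classical
  intro hBAS hPAR hFINO hPCL hFPR D
  obtain ⟨-, -, -, -, hinv, -, -, hRtw, -, -, hrf2, hrfc, -, -, -, -⟩ := hBAS D
  have hP : ∃ P : Set (D.V × D.V), P.Finite ∧
      ∀ φ ∈ D.Rt, ∀ ψ ∈ D.Rt, |D.B φ ψ| < 1 → ∃ w : D.W, (D.ρ w φ, D.ρ w ψ) ∈ P := by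
    refine ⟨⋃ J ∈ {J : Set D.S | Finite (D.par J)},
      {φ | φ ∈ D.Rt ∧ D.In J φ} ×ˢ {φ | φ ∈ D.Rt ∧ D.In J φ}, ?_, ?_⟩
    · refine Set.Finite.biUnion (Set.toFinite _) (fun J hJ => ?_)
      exact (hFPR D J hJ).1.prod (hFPR D J hJ).1
    · intro φ hφ ψ hψ hlt
      obtain ⟨k, hk, hk1⟩ := hFINO D φ hφ ψ hψ hlt
      have hfin := bfn_dihedral (D.rf φ) (D.rf ψ) (hrf2 φ hφ) (hrf2 ψ hψ) k hk hk1
      obtain ⟨g, J, hle, hJ⟩ := (hPCL D (Subgroup.closure {D.rf φ, D.rf ψ})).2 hfin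
      have hkey : ∀ χ ∈ D.Rt, D.rf χ ∈ D.cp g J → D.In J (D.ρ g⁻¹ χ) := by
        intro χ hχ hm
        obtain ⟨p, hp, hpe⟩ := Subgroup.mem_map.1 hm
        have h1 : g * p * g⁻¹ = D.rf χ := by simpa using hpe
        refine (hPAR D J).2.2.2.2.1 _ (hRtw χ hχ g⁻¹) ?_
        rw [hrfc χ hχ g⁻¹, ← h1]
        have : g⁻¹ * (g * p * g⁻¹) * g⁻¹⁻¹ = p := by group
        rw [this]
        exact hp
      refine ⟨g⁻¹, Set.mem_biUnion (show J ∈ {J : Set D.S | Finite (D.par J)} from hJ) ?_⟩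
      refine ⟨⟨hRtw φ hφ _, hkey φ hφ (hle (Subgroup.subset_closure (by simp)))⟩,
        ⟨hRtw ψ hψ _, hkey ψ hψ (hle (Subgroup.subset_closure (by simp)))⟩⟩
  refine ⟨hP, ?_⟩
  obtain ⟨P, hPf, hPc⟩ := hP
  refine (hPf.image (fun p => D.B p.1 p.2)).subset ?_
  rintro r ⟨φ, hφ, ψ, hψ, hlt, rfl⟩
  obtain ⟨w, hw⟩ := hPc φ hφ ψ hψ hlt
  exact ⟨_, hw, hinv w φ ψ⟩

end Pool.CS
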