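import Pool.Agent.Work.MP_64ea0f_cs.InterfaceG1

set_option autoImplicit false

namespace Pool.CS

theorem far3_thm : Stmt_BAS → Stmt_ORD → Stmt_NRT → Stmt_FAR1 → Stmt_FAR2 → Stmt_DIM →
    Stmt_FAR3 := by
  classical
  intro hBAS hORD hNRT hFAR1 hFAR2 hDIM D K hK
  obtain ⟨-, -, -, -, -, hnorm, -⟩ := hBAS D
  obtain ⟨C0, hC0, hF⟩ := hFAR1 D K hK
  refine ⟨C0, fun C hC x hx => ?_⟩
  have hmono : ∀ δ, D.Far K C x δ → D.Far K C0 x δ := fun δ h =>
    ⟨h.1, fun hn => h.2 ((hNRT D K C0).2.1 C x δ hC hn)⟩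
  -- orthogonality
  have horth : ∀ δ δ', D.Far K C x δ → D.Far K C x δ' → δ ≠ δ' → D.B δ δ' = 0 := by
    intro δ δ' h h' hne
    obtain ⟨hle, -⟩ := hORD D δ δ' h.1 h'.1
    rcases hle.lt_or_eq with hlt | heq
    · exfalso
      obtain ⟨hb, hcm, -⟩ := hF x hx δ' (hmono δ' h')
      have h0 := hFAR2 D K x hx.1 δ δ' h.1 h'.1 hb hcm hlt
      exact h.2 ((hNRT D K 0).2.1 C x δ (hC0.trans hC) h0)
    · exact heq
  -- nonempty
  have hne : ∀ δ, D.Far K C x δ → (D.Fd δ).Nonempty := by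
    intro δ h
    by_contra hem
    rw [Set.not_nonempty_iff_eq_empty] at hem
    have hδ0 : δ ≠ 0 := by
      obtain ⟨g, u, hu, rfl⟩ := h.1
      intro h0
      have hu0 : u = 0 := by
        have : D.ρ g⁻¹ (D.ρ g u) = u := by
          rw [← Module.End.mul_apply, ← map_mul, inv_mul_cancel, map_one]
          rfl
        rw [h0, map_zero] at this
        exact this.symm
      have h1 := hu.2.2.1
      rw [hu0] at h1
      simp [Rd.ht] at h1
    obtain ⟨s, hs⟩ : ∃ s, δ s ≠ 0 := by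
      by_contra hall
      push Not at hall
      exact hδ0 (funext hall)
    refine h.2 ⟨(δ s)⁻¹ • LinearMap.proj s, ?_, ?_, ?_⟩
    · simp [hs]
    · intro φ hφ
      rw [hem] at hφ
      exact absurd hφ (Set.notMem_empty _)
    · intro φ _ hφ
      rw [hem] at hφ
      exact absurd hφ (Set.notMem_empty _)
  obtain ⟨n, hn⟩ := hDIM D
  by_contra hinf
  have hinf' : {δ | D.Far K C x δ}.Infinite := hinf
  obtain ⟨T, hT, hcard⟩ := hinf'.exists_subset_card_eq (n + 1)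
  let f : D.V → D.V := fun δ => if h : D.Far K C x δ then (hne δ h).choose else 0
  have hf : ∀ δ, D.Far K C x δ → f δ ∈ D.Fd δ := by
    intro δ h
    have : f δ = (hne δ h).choose := by simp only [f, dif_pos h]
    rw [this]
    exact (hne δ h).choose_spec
  have hB0 : ∀ δ ∈ T, ∀ δ' ∈ T, δ ≠ δ' → D.B (f δ) (f δ') = 0 := by
    intro δ hδ δ' hδ' hd
    have h1 := hT hδ
    have h2 := hT hδ'
    exact ((hORD D δ δ' h1.1 h2.1).2 (horth δ δ' h1 h2 hd) hd (f δ) (hf δ h1)).2.2 (f δ')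
      (hf δ' h2)
  have hinj : Set.InjOn f T := by
    intro δ hδ δ' hδ' he
    by_contra hd
    have h1 := hB0 δ hδ δ' hδ' hd
    rw [← he, hnorm (f δ) (hf δ (hT hδ)).1] at h1
    exact one_ne_zero h1
  have h3 := hn (T.image f) ?_ ?_
  · rw [Finset.card_image_of_injOn hinj, hcard] at h3
    omega
  · intro φ hφ
    obtain ⟨δ, hδ, rfl⟩ := Finset.mem_image.1 hφ
    exact (hf δ (hT hδ)).1
  · intro φ hφ ψ hψ hd
    obtain ⟨δ, hδ, rfl⟩ := Finset.mem_image.1 hφ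
    obtain ⟨δ', hδ', rfl⟩ := Finset.mem_image.1 hψ
    have hdd : δ ≠ δ' := fun h => hd (by rw [h])
    rw [hB0 δ hδ δ' hδ' hdd]
    simp

end Pool.CS
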