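import Pool.Agent.Work.MP_64ea0f_cs.InterfaceG1

set_option autoImplicit false

namespace Pool.CS

theorem fin12_thm : Stmt_SGN → Stmt_VX1 → Stmt_HGT → Stmt_CLC → Stmt_SMR → Stmt_NCT → Stmt_LIN →
    Stmt_SAV → Stmt_FIN1 ∧ Stmt_FIN2 := by
  intro hSGN hVX1 hHGT hCLC hSMR hNCT hLIN hSAV
  have hAf : ∀ (D : Rd) (u : D.V), D.Sa u → D.Af u := by
    intro D u hu
    refine ⟨1, u, hu, ?_⟩
    rw [map_one]
    rfl
  have hnear : ∀ (D : Rd) (C : ℝ) (x : Set D.V) (u φ : D.V), D.Sa u → φ ∈ D.Fd u →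
      (∀ u, D.Sa u → D.Far ∅ C x u → φ ∉ D.Fd u) → D.Near ∅ C x u := by
    intro D C x u φ hu hφ h
    by_contra hn
    exact h u hu ⟨hAf D u hu, hn⟩ hφ
  have hF1 : Stmt_FIN1 := by
    intro D C
    obtain ⟨R, hR⟩ := hSMR D
    obtain ⟨R', hR'⟩ := hNCT D C
    refine (hHGT D (max R R')).subset ?_
    rintro μ ⟨hμ, x, hx, hm, hfar⟩
    refine ⟨hμ, ?_⟩
    by_contra hlt
    rw [not_le, max_lt_iff] at hlt
    obtain ⟨u, hu, hin⟩ := hR μ hμ (fun s => ((hCLC D x hx).2.1 μ hμ hm s).le) hlt.1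
    have hFd : μ ∈ D.Fd u := ((hLIN D u hu).2 μ).2 ⟨hμ.1, hin⟩
    have h1 := (hR' u hu x hx (hnear D C x u μ hu hFd hfar)).1 μ hμ hFd hm
    linarith [hlt.2]
  refine ⟨hF1, ?_⟩
  intro D C
  obtain ⟨R, hR⟩ := hSMR D
  obtain ⟨R', hR'⟩ := hNCT D C
  have hfin : (Set.range D.e ∪ {φ | φ ∈ D.Ps ∧ D.ht φ ≤ max R R'} ∪
      (fun v : D.V => -v) '' {μ | μ ∈ D.Ps ∧ ∃ x, D.Cls x ∧ -μ ∈ x ∧
        ∀ u, D.Sa u → D.Far ∅ C x u → μ ∉ D.Fd u}).Finite :=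
    ((Set.finite_range D.e).union (hHGT D (max R R'))).union ((hF1 D C).image _)
  refine hfin.subset ?_
  rintro φ ⟨x, hx, hmn, hfar⟩
  by_cases hφ : φ ∈ D.Ps
  · rcases (hCLC D x hx).2.2 φ hφ hmn with ⟨s, rfl⟩ | hB
    · exact Or.inl (Or.inl ⟨s, rfl⟩)
    · refine Or.inl (Or.inr ⟨hφ, ?_⟩)
      by_contra hlt
      rw [not_le, max_lt_iff] at hlt
      obtain ⟨u, hu, hin⟩ := hR φ hφ (fun s => (hB s).le) hlt.1
      have hFd : φ ∈ D.Fd u := ((hLIN D u hu).2 φ).2 ⟨hφ.1, hin⟩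
      have h1 := (hR' u hu x hx (hnear D C x u φ hu hFd hfar)).2 φ hFd hmn
      have h2 := le_abs_self (D.ht φ)
      linarith [hlt.2]
  · have hRt : φ ∈ D.Rt := hx.1.sub hmn.1
    have hnP : -φ ∈ D.Ps := ((hSGN D).1 φ hRt).resolve_left hφ
    refine Or.inr ⟨-φ, ⟨hnP, x, hx, by rw [neg_neg]; exact hmn.1, ?_⟩, by simp⟩
    intro u hu hf hFd
    refine hfar u hu hf (((hLIN D u hu).2 φ).2 ⟨hRt, ?_⟩)
    have h1 := (((hLIN D u hu).2 (-φ)).1 hFd).2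
    intro s hs
    have h2 := h1 s hs
    have h3 : -(φ s) = 0 := h2
    linarith

end Pool.CS
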