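import Pool.Agent.Work.MP_64ea0f_cs.InterfaceG1

set_option autoImplicit false

namespace Pool.CS

theorem sbl_thm : Stmt_BAS → Stmt_NST → Stmt_THR → Stmt_ORT → Stmt_SBL := by
  intro hBAS hNST hTHR hORT D δ hδ
  obtain ⟨hsymm, hlin, -, -, -, -, -, -, hneg, -⟩ := hBAS D
  obtain ⟨hO, -⟩ := hORT D
  obtain ⟨hFd0, -, hδδ⟩ := hO δ hδ
  have hadd : ∀ (v w : D.V) (t : ℝ), D.B v (w + t • δ) = D.B v w + t * D.B v δ := by
    intro v w t
    rw [hsymm v, hsymm v w, hsymm v δ]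
    have := hlin 1 t w δ v
    simpa using this
  have hnegl : ∀ v w : D.V, D.B (-v) w = - D.B v w := by
    intro v w
    have := hlin (-1) 0 v 0 w
    simpa using this
  have hnegr : ∀ v w : D.V, D.B v (-w) = - D.B v w := by
    intro v w
    rw [hsymm, hnegl, hsymm]
  have key : ∀ φ ∈ D.Fd δ, ∀ ψ ∈ D.Rt, 1 ≤ D.B φ ψ → D.B ψ δ < 0 → D.Sub φ ψ := by
    intro φ hφ ψ hψ h1 hlt
    rcases (hNST D φ hφ.1 ψ hψ).2.1 h1 with h | h
    · exact h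
    exfalso
    obtain ⟨hc, hc2, hc3, -, -, hsub, -⟩ := hTHR D δ hδ φ hφ
    obtain ⟨n, hn⟩ := exists_nat_gt ((D.B ψ φ) / (D.cst δ φ * (- D.B ψ δ)))
    have hpos : 0 < D.cst δ φ * (- D.B ψ δ) := mul_pos hc (by linarith)
    rw [div_lt_iff₀ hpos] at hn
    have hr : φ + ((n : ℝ) * D.cst δ φ) • δ ∈ D.Rt := (hc2 _).2 ⟨n, by push_cast; ring⟩
    have ht0 : 0 ≤ (n : ℝ) * D.cst δ φ := by positivity
    have hs := hsub _ ht0 hr
    have hs' : D.Sub ψ (φ + ((n : ℝ) * D.cst δ φ) • δ) := fun w hw => hs w (h w hw)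
    have hne : ψ ≠ φ + ((n : ℝ) * D.cst δ φ) • δ := by
      intro he
      have h2 : D.B (φ + ((n : ℝ) * D.cst δ φ) • δ) δ = 0 := by
        rw [hsymm, hadd, hsymm δ φ, hFd0 φ hφ, hδδ]
        ring
      rw [← he] at h2
      linarith
    have h3 := (hNST D ψ hψ _ hr).1 hs' hne
    rw [hadd] at h3
    nlinarith
  intro φ hφ ψ hψ h1
  refine ⟨key φ hφ ψ hψ h1, fun hpos => ?_⟩
  obtain ⟨-, -, -, hn, -⟩ := hTHR D δ hδ φ hφ
  have h2 := key (-φ) hn (-ψ) (hneg ψ hψ) (by rw [hnegl, hnegr]; linarith)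
    (by rw [hnegl]; linarith)
  exact (hNST D ψ hψ φ hφ.1).2.2.2.2.1.2 h2

end Pool.CS
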